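import Mathlib
import Pool.Agent.Q127.ET.Spec3

/-!
# Project ET, job ET12: the members of the class have order one
-/

set_option autoImplicit false

open MeasureTheory Set Filter Topology

namespace Pool.Agent.Q199.ET

open Pool.Agent.H469R10.HO Pool.Agent.H13R3.EM

/-- comparison function -/
noncomputable def E (A R : ℝ) : ℝ := Real.exp (A * ((R + 1) * Real.log (R + 2)))

lemma log_ge {R : ℝ} (hR : 0 ≤ R) : (1 : ℝ) / 2 ≤ Real.log (R + 2) := by
  have h1 : Real.log 2 ≤ Real.log (R + 2) := Real.log_le_log (by norm_num) (by linarith)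
  linarith [Real.log_two_gt_d9]

lemma base_ge {R : ℝ} (hR : 0 ≤ R) : (1 : ℝ) / 2 ≤ (R + 1) * Real.log (R + 2) := by
  have := log_ge hR
  nlinarith

lemma E_pos (A R : ℝ) : 0 < E A R := Real.exp_pos _

lemma E_mul (A B R : ℝ) : E A R * E B R = E (A + B) R := by
  unfold E
  rw [← Real.exp_add]
  congr 1
  ring

lemma E_mono {A B R : ℝ} (hR : 0 ≤ R) (h : A ≤ B) : E A R ≤ E B R := by
  apply Real.exp_le_exp.2
  have := base_ge hR
  nlinarith

lemma one_le_E {A R : ℝ} (hR : 0 ≤ R) (hA : 0 ≤ A) : 1 ≤ E A R := by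
  apply Real.one_le_exp
  have := base_ge hR
  positivity

lemma const_le_E {C R : ℝ} (hR : 0 ≤ R) (hC : 0 ≤ C) : C ≤ E (2 * C) R := by
  have h1 : C ≤ Real.exp C := by linarith [Real.add_one_le_exp C]
  refine h1.trans (Real.exp_le_exp.2 ?_)
  have := base_ge hR
  nlinarith

lemma exp_le_E {B R x : ℝ} (hR : 0 ≤ R) (hB : 0 ≤ B) (hx : x ≤ B * (R + 1)) :
    Real.exp x ≤ E (2 * B) R := by
  refine Real.exp_le_exp.2 (hx.trans ?_)
  have h1 := log_ge hR
  have h2 : 0 ≤ B * (R + 1) := by positivity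
  nlinarith

lemma pow_le_E {R : ℝ} (hR : 0 ≤ R) (k : ℕ) : (R + 2) ^ k ≤ E k R := by
  have h0 : 0 < R + 2 := by linarith
  have h1 : (R + 2) ^ k = Real.exp (k * Real.log (R + 2)) := by
    rw [← Real.rpow_natCast, Real.rpow_def_of_pos h0, mul_comm]
  rw [h1]
  apply Real.exp_le_exp.2
  apply mul_le_mul_of_nonneg_left _ (Nat.cast_nonneg k)
  have h2 := log_ge hR
  nlinarith

lemma Gamma_le_pow {x : ℝ} (hx : 1 ≤ x) : Real.Gamma x ≤ Real.exp ((x + 1) * Real.log (x + 1)) := by
  have h0 : 0 < x := by linarith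
  have hG : 0 < Real.Gamma x := Real.Gamma_pos_of_pos h0
  have h1 : Real.Gamma x ≤ Real.Gamma (x + 1) := by
    rw [Real.Gamma_add_one h0.ne']
    nlinarith
  have h2 : Real.Gamma (x + 1) ≤ Real.Gamma ((⌈x⌉₊ : ℝ) + 1) := by
    apply Real.Gamma_strictMonoOn_Ici.monotoneOn
    · simp only [mem_Ici]; linarith
    · simp only [mem_Ici]
      have := Nat.le_ceil x
      linarith
    · have := Nat.le_ceil x
      linarith
  rw [Real.Gamma_nat_eq_factorial] at h2
  have h3 : ((⌈x⌉₊.factorial : ℕ) : ℝ) ≤ (⌈x⌉₊ : ℝ) ^ ⌈x⌉₊ := by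
    exact_mod_cast Nat.factorial_le_pow _
  have h4 : (⌈x⌉₊ : ℝ) ≤ x + 1 := (Nat.ceil_lt_add_one h0.le).le
  have h5 : (⌈x⌉₊ : ℝ) ^ ⌈x⌉₊ ≤ (x + 1) ^ ⌈x⌉₊ := pow_le_pow_left₀ (Nat.cast_nonneg _) h4 _
  have h6 : (x + 1) ^ ⌈x⌉₊ = Real.exp (⌈x⌉₊ * Real.log (x + 1)) := by
    rw [← Real.rpow_natCast, Real.rpow_def_of_pos (by linarith), mul_comm]
  have h7 : Real.exp (⌈x⌉₊ * Real.log (x + 1)) ≤ Real.exp ((x + 1) * Real.log (x + 1)) := by
    apply Real.exp_le_exp.2
    exact mul_le_mul_of_nonneg_right h4 (Real.log_nonneg (by linarith))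
  calc Real.Gamma x ≤ _ := h1
    _ ≤ _ := h2
    _ ≤ _ := h3
    _ ≤ _ := h5
    _ = _ := h6
    _ ≤ _ := h7

lemma Gamma_le_E {D : ℝ} (hD : 0 ≤ D) : ∃ A : ℝ, 0 ≤ A ∧ ∀ R x : ℝ, 0 ≤ R → 1 ≤ x →
    x ≤ D * (R + 1) → Real.Gamma x ≤ E A R := by
  refine ⟨(D + 1) * (2 * Real.log (D + 1) + 1), ?_, fun R x hR hx hxD => ?_⟩
  · have := Real.log_nonneg (show (1 : ℝ) ≤ D + 1 by linarith)
    positivity
  · have hl0 := Real.log_nonneg (show (1 : ℝ) ≤ D + 1 by linarith)
    refine (Gamma_le_pow hx).trans (Real.exp_le_exp.2 ?_)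
    have h1 : x + 1 ≤ (D + 1) * (R + 1) := by nlinarith
    have h2 : x + 1 ≤ (D + 1) * (R + 2) := by nlinarith
    have h3 : Real.log (x + 1) ≤ Real.log (D + 1) + Real.log (R + 2) := by
      rw [← Real.log_mul (by linarith) (by linarith)]
      exact Real.log_le_log (by linarith) h2
    have h4 := log_ge hR
    have h5 : Real.log (x + 1) ≤ (2 * Real.log (D + 1) + 1) * Real.log (R + 2) := by nlinarith
    have h6 : 0 ≤ Real.log (x + 1) := Real.log_nonneg (by linarith)
    calc (x + 1) * Real.log (x + 1) ≤ ((D + 1) * (R + 1)) * Real.log (x + 1) :=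
          mul_le_mul_of_nonneg_right h1 h6
      _ ≤ ((D + 1) * (R + 1)) * ((2 * Real.log (D + 1) + 1) * Real.log (R + 2)) := by
          apply mul_le_mul_of_nonneg_left h5
          positivity
      _ = _ := by ring

lemma E_order (A : ℝ) (hA : 0 ≤ A) {ε : ℝ} (hε : 0 < ε) :
    ∃ C : ℝ, 0 ≤ C ∧ ∀ R : ℝ, 0 ≤ R → E A R ≤ C * Real.exp (R ^ (1 + ε)) := by
  -- log(R+2) ≤ (R+2)^(ε/2) / (ε/2)
  set B : ℝ := A * (2 / ε) * 2 ^ (1 + ε / 2) with hB
  have hB0 : 0 ≤ B := by positivity
  set T : ℝ := max 2 (B ^ (2 / ε)) with hT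
  have hT2 : 2 ≤ T := le_max_left _ _
  refine ⟨E A T, (E_pos _ _).le, fun R hR => ?_⟩
  rcases le_total R T with hRT | hRT
  · have h1 : E A R ≤ E A T := by
      apply Real.exp_le_exp.2
      apply mul_le_mul_of_nonneg_left _ hA
      have h2 : Real.log (R + 2) ≤ Real.log (T + 2) := Real.log_le_log (by linarith) (by linarith)
      have h3 := log_ge hR
      exact mul_le_mul (by linarith) h2 (by linarith) (by linarith)
    have h4 : 1 ≤ Real.exp (R ^ (1 + ε)) := Real.one_le_exp (Real.rpow_nonneg hR _)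
    have := E_pos A T
    nlinarith
  · have hR2 : 2 ≤ R := hT2.trans hRT
    have hRpos : 0 < R := by linarith
    have h1 : Real.log (R + 2) ≤ (R + 2) ^ (ε / 2) / (ε / 2) :=
      Real.log_le_rpow_div (by linarith) (by linarith)
    have h2 : (R + 1) * Real.log (R + 2) ≤ (R + 2) * ((R + 2) ^ (ε / 2) / (ε / 2)) := by
      have h3 := log_ge hR
      exact mul_le_mul (by linarith) h1 (by linarith) (by linarith)
    have h3 : (R + 2) * ((R + 2) ^ (ε / 2) / (ε / 2)) = (2 / ε) * (R + 2) ^ (1 + ε / 2) := by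
      rw [Real.rpow_add (by linarith), Real.rpow_one]
      field_simp
    have h4 : (R + 2) ^ (1 + ε / 2) ≤ (2 * R) ^ (1 + ε / 2) :=
      Real.rpow_le_rpow (by linarith) (by linarith) (by linarith)
    have h5 : (2 * R) ^ (1 + ε / 2) = 2 ^ (1 + ε / 2) * R ^ (1 + ε / 2) :=
      Real.mul_rpow (by norm_num) hR
    have h6 : A * ((R + 1) * Real.log (R + 2)) ≤ B * R ^ (1 + ε / 2) := by
      calc A * ((R + 1) * Real.log (R + 2)) ≤ A * ((2 / ε) * (R + 2) ^ (1 + ε / 2)) := by
            apply mul_le_mul_of_nonneg_left _ hA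
            rw [← h3]; exact h2
        _ ≤ A * ((2 / ε) * (2 ^ (1 + ε / 2) * R ^ (1 + ε / 2))) := by
            apply mul_le_mul_of_nonneg_left _ hA
            apply mul_le_mul_of_nonneg_left _ (by positivity)
            rw [← h5]; exact h4
        _ = _ := by rw [hB]; ring
    have h7 : B ≤ R ^ (ε / 2) := by
      have h8 : B ^ (2 / ε) ≤ R := (le_max_right _ _).trans hRT
      have h9 : (B ^ (2 / ε)) ^ (ε / 2) ≤ R ^ (ε / 2) :=
        Real.rpow_le_rpow (Real.rpow_nonneg hB0 _) h8 (by linarith)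
      rw [← Real.rpow_mul hB0] at h9
      have e1 : 2 / ε * (ε / 2) = 1 := by field_simp
      rw [e1, Real.rpow_one] at h9
      exact h9
    have h10 : B * R ^ (1 + ε / 2) ≤ R ^ (1 + ε) := by
      calc B * R ^ (1 + ε / 2) ≤ R ^ (ε / 2) * R ^ (1 + ε / 2) :=
            mul_le_mul_of_nonneg_right h7 (Real.rpow_nonneg hR _)
        _ = R ^ (1 + ε) := by
            rw [← Real.rpow_add hRpos]
            congr 1
            ring
    have h11 : E A R ≤ Real.exp (R ^ (1 + ε)) := Real.exp_le_exp.2 (h6.trans h10)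
    have h12 := one_le_E (A := A) (R := T) (by linarith) hA
    have := Real.exp_pos (R ^ (1 + ε))
    nlinarith

/-! ### bounds for the gamma function -/

lemma norm_Gamma_le {z : ℂ} (hz : 0 < z.re) : ‖Complex.Gamma z‖ ≤ Real.Gamma z.re := by
  rw [Complex.Gamma_eq_integral hz, Complex.GammaIntegral, Real.Gamma_eq_integral hz]
  refine (norm_integral_le_integral_norm _).trans_eq ?_
  apply setIntegral_congr_fun measurableSet_Ioi
  intro x hx
  have hx : 0 < x := hx
  simp only [norm_mul, Complex.norm_real, Real.norm_of_nonneg (Real.exp_pos _).le]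
  rw [Complex.norm_cpow_eq_rpow_re_of_pos hx]
  simp

lemma norm_sin_le (z : ℂ) : ‖Complex.sin z‖ ≤ Real.exp |z.im| := by
  rw [Complex.sin]
  rw [norm_div, norm_mul, Complex.norm_I, mul_one, Complex.norm_ofNat]
  have h1 : ‖Complex.exp (-z * Complex.I) - Complex.exp (z * Complex.I)‖ ≤
      Real.exp |z.im| + Real.exp |z.im| := by
    refine (norm_sub_le _ _).trans ?_
    rw [Complex.norm_exp, Complex.norm_exp]
    apply add_le_add
    · apply Real.exp_le_exp.2
      have : (-z * Complex.I).re = z.im := by simp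
      rw [this]; exact le_abs_self _
    · apply Real.exp_le_exp.2
      have : (z * Complex.I).re = -z.im := by simp
      rw [this]; exact neg_le_abs _
  linarith

lemma inv_Gamma_le {w : ℂ} (hw : w.re ≤ 0) :
    ‖(Complex.Gamma w)⁻¹‖ ≤ Real.Gamma (1 - w.re) * Real.exp (Real.pi * |w.im|) := by
  have h1 : 0 < (1 - w).re := by simp; linarith
  have hne : Complex.Gamma (1 - w) ≠ 0 := Complex.Gamma_ne_zero_of_re_pos h1
  have h2 := Complex.Gamma_mul_Gamma_one_sub w
  have h3 : ‖Complex.Gamma (1 - w)‖ ≤ Real.Gamma (1 - w.re) := by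
    have := norm_Gamma_le h1
    simpa using this
  have hG : 0 < Real.Gamma (1 - w.re) := Real.Gamma_pos_of_pos (by linarith)
  rcases eq_or_ne (Complex.sin (Real.pi * w)) 0 with hs | hs
  · rw [hs, div_zero] at h2
    have : Complex.Gamma w = 0 := by
      rcases mul_eq_zero.1 h2 with h | h
      · exact h
      · exact absurd h hne
    rw [this, inv_zero, norm_zero]
    positivity
  · have hpi : (Real.pi : ℂ) ≠ 0 := by exact_mod_cast Real.pi_ne_zero
    have hGw : Complex.Gamma w ≠ 0 := by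
      intro h0
      rw [h0, zero_mul] at h2
      have := div_ne_zero hpi hs
      exact this h2.symm
    have h4 : (Complex.Gamma w)⁻¹ = Complex.Gamma (1 - w) * Complex.sin (Real.pi * w) / Real.pi := by
      rw [eq_div_iff hs] at h2
      rw [eq_div_iff hpi]
      calc (Complex.Gamma w)⁻¹ * (Real.pi : ℂ) = (Complex.Gamma w)⁻¹ *
            (Complex.Gamma w * Complex.Gamma (1 - w) * Complex.sin (Real.pi * w)) := by rw [h2]
        _ = ((Complex.Gamma w)⁻¹ * Complex.Gamma w) *
            (Complex.Gamma (1 - w) * Complex.sin (Real.pi * w)) := by ring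
        _ = _ := by rw [inv_mul_cancel₀ hGw, one_mul]
    rw [h4, norm_div, norm_mul, Complex.norm_real, Real.norm_of_nonneg Real.pi_pos.le]
    have h5 : ‖Complex.sin (Real.pi * w)‖ ≤ Real.exp (Real.pi * |w.im|) := by
      refine (norm_sin_le _).trans_eq ?_
      congr 1
      simp [abs_mul, abs_of_pos Real.pi_pos]
    rw [div_le_iff₀ Real.pi_pos]
    calc ‖Complex.Gamma (1 - w)‖ * ‖Complex.sin (Real.pi * w)‖
        ≤ Real.Gamma (1 - w.re) * Real.exp (Real.pi * |w.im|) :=
          mul_le_mul h3 h5 (norm_nonneg _) hG.le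
      _ ≤ Real.Gamma (1 - w.re) * Real.exp (Real.pi * |w.im|) * Real.pi := by
          have : (1:ℝ) ≤ Real.pi := by linarith [Real.pi_gt_three]
          have h0 : 0 ≤ Real.Gamma (1 - w.re) * Real.exp (Real.pi * |w.im|) := by positivity
          nlinarith

lemma inv_Gamma_shift {z : ℂ} (hz : 1 ≤ |z.im|) (N : ℕ) :
    ‖(Complex.Gamma z)⁻¹‖ ≤ ‖(Complex.Gamma (z - N))⁻¹‖ := by
  induction N with
  | zero => simp
  | succ N ih =>
    refine ih.trans ?_
    have h := Complex.one_div_Gamma_eq_self_mul_one_div_Gamma_add_one (z - (N+1 : ℕ))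
    have e : z - ((N+1 : ℕ) : ℂ) + 1 = z - N := by push_cast; ring
    rw [e] at h
    rw [h, norm_mul]
    have h2 : 1 ≤ ‖z - ((N+1 : ℕ) : ℂ)‖ := by
      refine hz.trans ?_
      have := Complex.abs_im_le_norm (z - ((N+1 : ℕ) : ℂ))
      have e2 : (z - ((N+1 : ℕ) : ℂ)).im = z.im := by simp
      rwa [e2] at this
    have h3 := norm_nonneg (Complex.Gamma (z - N))⁻¹
    nlinarith

/-- `1/Γ` on a left half plane -/
lemma inv_Gamma_E {b D : ℝ} (hD : 0 ≤ D) : ∃ A : ℝ, 0 ≤ A ∧ ∀ (R : ℝ) (w : ℂ), 0 ≤ R →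
    w.re ≤ b → ‖w‖ ≤ D * (R + 1) → ‖(Complex.Gamma w)⁻¹‖ ≤ E A R := by
  obtain ⟨N, hN⟩ := exists_nat_ge b
  obtain ⟨A1, hA1, hG⟩ := Gamma_le_E (D := D + N + 1) (by positivity)
  obtain ⟨C, hC⟩ := (isCompact_closedBall (0 : ℂ) (b + 1)).exists_bound_of_continuousOn
    (Complex.differentiable_one_div_Gamma.continuous.continuousOn)
  refine ⟨A1 + 2 * (Real.pi * D) + 2 * |C|, by positivity, fun R w hR hwb hwD => ?_⟩
  have hE : E (A1 + 2 * (Real.pi * D)) R ≤ E (A1 + 2 * (Real.pi * D) + 2 * |C|) R :=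
    E_mono hR (by linarith [abs_nonneg C])
  have him : |w.im| ≤ D * (R + 1) := (Complex.abs_im_le_norm w).trans hwD
  have hre : |w.re| ≤ D * (R + 1) := (Complex.abs_re_le_norm w).trans hwD
  have hexp : Real.exp (Real.pi * |w.im|) ≤ E (2 * (Real.pi * D)) R := by
    apply exp_le_E hR (by positivity)
    have := Real.pi_pos
    nlinarith
  have key : ∀ k : ℕ, (k : ℝ) ≤ N → (w - k).re ≤ 0 →
      ‖(Complex.Gamma (w - k))⁻¹‖ ≤ E (A1 + 2 * (Real.pi * D)) R := by
    intro k hkN hk
    refine (inv_Gamma_le hk).trans ?_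
    rw [← E_mul]
    have e1 : (w - k).im = w.im := by simp
    have e2 : (w - k).re = w.re - k := by simp
    rw [e1]
    apply mul_le_mul _ hexp (Real.exp_pos _).le (E_pos _ _).le
    apply hG R _ hR
    · linarith
    · rw [e2]
      have h3 : -w.re ≤ D * (R + 1) := (neg_le_abs _).trans hre
      have h4 : 0 ≤ (N : ℝ) * R := by positivity
      nlinarith
  rcases le_total w.re 0 with h0 | h0
  · have := key 0 (by simp) (by simpa using h0)
    simp only [Nat.cast_zero, sub_zero] at this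
    exact this.trans hE
  · rcases le_total 1 |w.im| with h1 | h1
    · refine (inv_Gamma_shift h1 N).trans ((key N le_rfl ?_).trans hE)
      simp only [Complex.sub_re, Complex.natCast_re]
      linarith
    · have h2 : w ∈ Metric.closedBall (0 : ℂ) (b + 1) := by
        rw [mem_closedBall_zero_iff]
        have := Complex.norm_le_abs_re_add_abs_im w
        rw [abs_of_nonneg h0] at this
        linarith
      have h3 := hC w h2
      refine h3.trans ((le_abs_self C).trans ((const_le_E hR (abs_nonneg C)).trans (E_mono hR ?_)))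
      have := Real.pi_pos
      have : 0 ≤ Real.pi * D := by positivity
      linarith

theorem ord : Pool.Agent.Q127.ET.S_Ord := by
  intro m F K hm hm0 hr hlm hK ε hε
  -- write the data with a single gamma factor
  have hl0 : 0 < lamH m := by unfold lamH; positivity
  have hl1 : 1 ≤ lamH m := by
    unfold lamH
    have : (0 : ℝ) ≤ m := Nat.cast_nonneg m
    linarith
  have hprod : ∀ (g : Fin F.r → ℂ) (v : ℂ), (∀ j, g j = v) → ∏ j, g j = v := by
    intro g v hg
    rw [Finset.prod_congr rfl (fun j _ => hg j), Finset.prod_const, Finset.card_univ, Fintype.card_fin, hr, pow_one]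
  obtain ⟨A1, hA1, hΓ⟩ := Gamma_le_E (D := lamH m + 1) (by positivity)
  obtain ⟨A2, hA2, hinv⟩ := inv_Gamma_E (b := lamH m / 2 + 1 / 4) (D := lamH m + 1) (by positivity)
  set q : ℝ := |Real.log F.Q| with hq
  have hq0 : 0 ≤ q := abs_nonneg _
  -- total exponent
  set A : ℝ := 2 * (2 * q) + A1 + A2 + (2 * |K| + ((m + 2 : ℕ) : ℝ)) with hA
  have hA0 : 0 ≤ A := by positivity
  have hright : ∀ (w : ℂ) (R : ℝ), 0 ≤ R → 1 / 2 ≤ w.re → ‖w + 1‖ ≤ R + 2 →
      ‖F.G w‖ ≤ E (2 * |K| + ((m + 2 : ℕ) : ℝ)) R := by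
    intro w R hR hw h1
    refine (hK w hw).trans ?_
    rw [← E_mul]
    have h2 : ‖w + 1‖ ^ (m + 2) ≤ (R + 2) ^ (m + 2) := pow_le_pow_left₀ (norm_nonneg _) h1 _
    have h3 : K ≤ E (2 * |K|) R := (le_abs_self K).trans (const_le_E hR (abs_nonneg _))
    exact mul_le_mul h3 (h2.trans (pow_le_E hR _)) (by positivity) (E_pos _ _).le
  have hmain : ∀ s : ℂ, s.im ≠ 0 → ‖F.G s‖ ≤ E A ‖s‖ := by
    intro s him
    have hs0 := norm_nonneg s
    rcases le_or_gt (1 / 2) s.re with hs | hs
    · refine (hright s ‖s‖ hs0 hs ?_).trans (E_mono hs0 (by rw [hA]; linarith))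
      refine (norm_add_le _ _).trans ?_
      rw [norm_one]; linarith
    · have hne0 : s ≠ 0 := by rintro rfl; simp at him
      have hne1 : s ≠ 1 := by rintro rfl; simp at him
      have hfe := F.fe s hne0 hne1 ?_ ?_
      · set W : ℂ := 1 - starRingEnd ℂ s with hW
        have hWre : W.re = 1 - s.re := by simp [hW]
        have hWn : ‖W + 1‖ ≤ ‖s‖ + 2 := by
          have e : W + 1 = 2 - starRingEnd ℂ s := by rw [hW]; ring
          rw [e]
          refine (norm_sub_le _ _).trans ?_
          rw [Complex.norm_conj, Complex.norm_ofNat]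
          linarith
        have e1 : ∏ j, Complex.Gamma ((F.lam j : ℂ) * s + F.μ j) =
            Complex.Gamma ((lamH m : ℂ) * s + 1 / 4) := by
          apply hprod
          intro j
          rw [(hlm j).1, (hlm j).2]
        have e2 : ∏ j, Complex.Gamma ((F.lam j : ℂ) * W + F.μ j) =
            Complex.Gamma ((lamH m : ℂ) * W + 1 / 4) := by
          apply hprod
          intro j
          rw [(hlm j).1, (hlm j).2]
        rw [e1, e2, hm0, pow_zero, pow_zero, div_one, div_one] at hfe
        have hn := congrArg norm hfe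
        rw [norm_mul, norm_mul, norm_mul, F.norm_omega, one_mul, Complex.norm_conj, norm_mul, norm_mul,
          Complex.norm_cpow_eq_rpow_re_of_pos F.Qpos, Complex.norm_cpow_eq_rpow_re_of_pos F.Qpos, hWre] at hn
        have hQs : 0 < F.Q ^ s.re := Real.rpow_pos_of_pos F.Qpos _
        have hGne : Complex.Gamma ((lamH m : ℂ) * s + 1 / 4) ≠ 0 := by
          apply Complex.Gamma_ne_zero
          intro n h
          have := congrArg Complex.im h
          simp at this
          rcases this with h | h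
          · exact hl0.ne' h
          · exact him h
        have hGn : 0 < ‖Complex.Gamma ((lamH m : ℂ) * s + 1 / 4)‖ := norm_pos_iff.2 hGne
        have hfin : ‖F.G s‖ = (F.Q ^ (1 - s.re) / F.Q ^ s.re) * ‖Complex.Gamma ((lamH m : ℂ) * W + 1 / 4)‖ *
            ‖(Complex.Gamma ((lamH m : ℂ) * s + 1 / 4))⁻¹‖ * ‖F.G W‖ := by
          rw [norm_inv]
          generalize ‖Complex.Gamma ((lamH m : ℂ) * s + 1 / 4)‖ = g1 at hn hGn ⊢
          generalize ‖Complex.Gamma ((lamH m : ℂ) * W + 1 / 4)‖ = g2 at hn ⊢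
          generalize F.Q ^ s.re = g3 at hn hQs ⊢
          generalize F.Q ^ (1 - s.re) = g4 at hn ⊢
          field_simp
          linarith [hn]
        rw [hfin]
        have b1 : F.Q ^ (1 - s.re) / F.Q ^ s.re ≤ E (2 * (2 * q)) ‖s‖ := by
          rw [← Real.rpow_sub F.Qpos, Real.rpow_def_of_pos F.Qpos]
          apply exp_le_E hs0 (by positivity)
          have h1 : |s.re| ≤ ‖s‖ := Complex.abs_re_le_norm s
          have h2 : Real.log F.Q * (1 - s.re - s.re) ≤ q * |1 - s.re - s.re| := by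
            rw [hq, ← abs_mul]; exact le_abs_self _
          have h3 : |1 - s.re - s.re| ≤ 2 * (‖s‖ + 1) := by
            rw [abs_le] at *
            constructor <;> linarith [h1.1, h1.2]
          have h4 : q * |1 - s.re - s.re| ≤ q * (2 * (‖s‖ + 1)) := mul_le_mul_of_nonneg_left h3 hq0
          linarith
        have hzre : ((lamH m : ℂ) * W + 1 / 4).re = lamH m * (1 - s.re) + 1 / 4 := by
          rw [Complex.add_re, Complex.re_ofReal_mul, hWre]
          norm_num
        have b2 : ‖Complex.Gamma ((lamH m : ℂ) * W + 1 / 4)‖ ≤ E A1 ‖s‖ := by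
          have hm2 : (2 : ℝ) ≤ m := by exact_mod_cast hm
          have hl5 : 5 ≤ lamH m := by unfold lamH; linarith
          have h1 : 1 ≤ lamH m * (1 - s.re) + 1 / 4 := by nlinarith
          refine (norm_Gamma_le (by rw [hzre]; linarith)).trans ?_
          rw [hzre]
          apply hΓ _ _ hs0 h1
          have h2 : |s.re| ≤ ‖s‖ := Complex.abs_re_le_norm s
          have h3 : -s.re ≤ ‖s‖ := (neg_le_abs _).trans h2
          nlinarith
        have b3 : ‖(Complex.Gamma ((lamH m : ℂ) * s + 1 / 4))⁻¹‖ ≤ E A2 ‖s‖ := by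
          apply hinv _ _ hs0
          · rw [Complex.add_re, Complex.re_ofReal_mul]
            norm_num
            nlinarith
          · refine (norm_add_le _ _).trans ?_
            rw [norm_mul, Complex.norm_real, Real.norm_of_nonneg hl0.le]
            have : ‖(1 / 4 : ℂ)‖ ≤ 1 := by norm_num
            nlinarith
        have b4 : ‖F.G W‖ ≤ E (2 * |K| + ((m + 2 : ℕ) : ℝ)) ‖s‖ :=
          hright W ‖s‖ hs0 (by rw [hWre]; linarith) hWn
        rw [hA, ← E_mul, ← E_mul, ← E_mul]
        have c1 : 0 ≤ F.Q ^ (1 - s.re) / F.Q ^ s.re :=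
          div_nonneg (Real.rpow_nonneg F.Qpos.le _) hQs.le
        have p1 := (E_pos (2 * (2 * q)) ‖s‖).le
        have p2 := (E_pos A1 ‖s‖).le
        have p3 := (E_pos A2 ‖s‖).le
        exact mul_le_mul (mul_le_mul (mul_le_mul b1 b2 (norm_nonneg _) p1) b3 (norm_nonneg _)
          (mul_nonneg p1 p2)) b4 (norm_nonneg _) (mul_nonneg (mul_nonneg p1 p2) p3)
      · intro j n h
        have := congrArg Complex.im h
        rw [(hlm j).1, (hlm j).2] at this
        simp at this
        rcases this with h | h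
        · exact hl0.ne' h
        · exact him h
      · intro j n h
        have := congrArg Complex.im h
        rw [(hlm j).1, (hlm j).2] at this
        simp at this
        rcases this with h | h
        · exact hl0.ne' h
        · exact him h
  -- all points by continuity
  have hall : ∀ s : ℂ, ‖F.G s‖ ≤ E A ‖s‖ := by
    have hcE : Continuous (fun s : ℂ => E A ‖s‖) := by
      unfold E
      apply Real.continuous_exp.comp
      apply continuous_const.mul
      apply (continuous_norm.add continuous_const).mul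
      apply Continuous.log (continuous_norm.add continuous_const)
      intro s h
      have := norm_nonneg s
      have h : ‖s‖ + 2 = 0 := h
      linarith
    have hclosed : IsClosed {s : ℂ | ‖F.G s‖ ≤ E A ‖s‖} :=
      isClosed_le F.diff.continuous.norm hcE
    intro s
    by_cases him : s.im = 0
    · have ht : Tendsto (fun t : ℝ => s + (t : ℂ) * Complex.I) (𝓝[>] 0) (𝓝 s) := by
        have hc : Continuous (fun t : ℝ => s + (t : ℂ) * Complex.I) := by fun_prop
        have := hc.tendsto 0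
        simp only [Complex.ofReal_zero, zero_mul, add_zero] at this
        exact this.mono_left nhdsWithin_le_nhds
      apply hclosed.mem_of_tendsto ht
      filter_upwards [self_mem_nhdsWithin] with t ht
      have ht : 0 < t := ht
      apply hmain
      simp [him, ht.ne']
    · exact hmain s him
  obtain ⟨C, hC0, hC⟩ := E_order A hA0 hε
  exact ⟨C, fun s => (hall s).trans (hC _ (norm_nonneg _))⟩

end Pool.Agent.Q199.ET
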